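import Pool.Agent.H785.PE.Wreath

/-!
helper785: a product of two groups of exponent `p` with an element of order `p ^ 3` (`p` odd).
The group consists of the permutations `(j, w, t) ↦ (j + s, (w + e)(· - s), t + f j w)` of
`ℤ/p × (ℤ/p)^(ℤ/p) × ℤ/p`, where `f j w` is affine in every coordinate of `w`.
-/

set_option autoImplicit false

namespace Pool.Agent.H785.PE

variable {p : ℕ}

/-- The set on which the group acts. -/
abbrev X (p : ℕ) := ZMod p × (ZMod p → ZMod p) × ZMod p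

/-- functions `f j w` -/
abbrev Fn (p : ℕ) := ZMod p → (ZMod p → ZMod p) → ZMod p

/-- The permutation with the parameters `s`, `e`, `f`. -/
def mk (s : ZMod p) (e : ZMod p → ZMod p) (f : Fn p) : Equiv.Perm (X p) where
  toFun x := (x.1 + s, fun m => x.2.1 (m - s) + e (m - s), x.2.2 + f x.1 x.2.1)
  invFun x := (x.1 - s, fun m => x.2.1 (m + s) - e m,
    x.2.2 - f (x.1 - s) (fun m => x.2.1 (m + s) - e m))
  left_inv := by
    rintro ⟨j, w, t⟩
    simp only [add_sub_cancel_right]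
  right_inv := by
    rintro ⟨j, w, t⟩
    simp only [sub_add_cancel]

theorem mk_apply (s : ZMod p) (e : ZMod p → ZMod p) (f : Fn p) (x : X p) :
    mk s e f x = (x.1 + s, fun m => x.2.1 (m - s) + e (m - s), x.2.2 + f x.1 x.2.1) := rfl

/-- parameters of a product: `e` -/
def me (s₂ : ZMod p) (e₁ e₂ : ZMod p → ZMod p) : ZMod p → ZMod p := fun m => e₂ m + e₁ (m + s₂)

/-- parameters of a product: `f` -/
def mf (s₂ : ZMod p) (e₂ : ZMod p → ZMod p) (f₁ f₂ : Fn p) : Fn p :=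
  fun j w => f₂ j w + f₁ (j + s₂) (fun m => w (m - s₂) + e₂ (m - s₂))

theorem mk_mul (s₁ s₂ : ZMod p) (e₁ e₂ : ZMod p → ZMod p) (f₁ f₂ : Fn p) :
    mk s₁ e₁ f₁ * mk s₂ e₂ f₂ = mk (s₂ + s₁) (me s₂ e₁ e₂) (mf s₂ e₂ f₁ f₂) := by
  apply Equiv.ext
  rintro ⟨j, w, t⟩
  rw [Equiv.Perm.mul_apply]
  simp only [mk_apply, me, mf]
  refine Prod.ext (by simp only; ring) (Prod.ext ?_ (by simp only; ring))
  funext m
  simp only
  rw [show m - s₁ - s₂ = m - (s₂ + s₁) by ring, show m - (s₂ + s₁) + s₂ = m - s₁ by ring]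
  ring

/-- parameters of the inverse: `e` -/
def ie (s : ZMod p) (e : ZMod p → ZMod p) : ZMod p → ZMod p := fun m => -e (m - s)

/-- parameters of the inverse: `f` -/
def iF (s : ZMod p) (e : ZMod p → ZMod p) (f : Fn p) : Fn p :=
  fun j w => -f (j - s) (fun m => w (m + s) - e m)

theorem mk_inv (s : ZMod p) (e : ZMod p → ZMod p) (f : Fn p) :
    (mk s e f)⁻¹ = mk (-s) (ie s e) (iF s e f) := by
  apply Equiv.ext
  rintro ⟨j, w, t⟩
  rw [Equiv.Perm.inv_eq_iff_eq]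
  simp only [mk_apply, ie, iF]
  refine Prod.ext (by simp) (Prod.ext ?_ ?_)
  · funext m
    simp only
    rw [show m - s - -s = m by ring]
    ring
  · simp only
    have : (fun m => w (m - -s) + -e (m - -s - s)) = fun m => w (m + s) - e m := by
      funext m
      rw [sub_neg_eq_add, add_sub_cancel_right, sub_eq_add_neg]
    rw [this, ← sub_eq_add_neg]
    ring_nf

theorem mk_one : mk (0 : ZMod p) 0 0 = 1 := by
  apply Equiv.ext
  rintro ⟨j, w, t⟩
  simp [mk_apply]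

/-- `f j w` is affine in every coordinate of `w`. -/
def Aff (f : Fn p) : Prop :=
  ∀ j w i, ∃ u v : ZMod p, ∀ x : ZMod p, f j (Function.update w i x) = u + x * v

theorem Aff.zero : Aff (0 : Fn p) := fun _ _ _ => ⟨0, 0, fun x => by simp⟩

theorem Aff.mf {s₂ : ZMod p} {e₂ : ZMod p → ZMod p} {f₁ f₂ : Fn p} (h₁ : Aff f₁) (h₂ : Aff f₂) :
    Aff (mf s₂ e₂ f₁ f₂) := by
  intro j w i
  obtain ⟨u₂, v₂, h2⟩ := h₂ j w i
  obtain ⟨u₁, v₁, h1⟩ := h₁ (j + s₂) (fun m => w (m - s₂) + e₂ (m - s₂)) (i + s₂)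
  refine ⟨u₂ + u₁ + e₂ i * v₁, v₂ + v₁, fun x => ?_⟩
  have : (fun m => Function.update w i x (m - s₂) + e₂ (m - s₂)) =
      Function.update (fun m => w (m - s₂) + e₂ (m - s₂)) (i + s₂) (x + e₂ i) := by
    funext m
    by_cases hm : m = i + s₂
    · subst hm
      simp
    · have hm' : m - s₂ ≠ i := fun h => hm (by rw [← h]; ring)
      rw [Function.update_of_ne hm, Function.update_of_ne hm']
  unfold PE.mf
  rw [h2 x, this, h1]
  ring

theorem Aff.iF {s : ZMod p} {e : ZMod p → ZMod p} {f : Fn p} (h : Aff f) : Aff (iF s e f) := by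
  intro j w i
  obtain ⟨u, v, h1⟩ := h (j - s) (fun m => w (m + s) - e m) (i - s)
  refine ⟨-u + e (i - s) * v, -v, fun x => ?_⟩
  have : (fun m => Function.update w i x (m + s) - e m) =
      Function.update (fun m => w (m + s) - e m) (i - s) (x - e (i - s)) := by
    funext m
    by_cases hm : m = i - s
    · subst hm
      simp
    · have hm' : m + s ≠ i := fun h => hm (by rw [← h]; ring)
      rw [Function.update_of_ne hm, Function.update_of_ne hm']
  unfold PE.iF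
  rw [this, h1]
  ring

/-- The subgroup of the permutations whose parameters have a property. -/
def GP (P : ZMod p → (ZMod p → ZMod p) → Fn p → Prop) (h1 : P 0 0 0)
    (h2 : ∀ s₁ e₁ f₁ s₂ e₂ f₂, P s₁ e₁ f₁ → P s₂ e₂ f₂ →
      P (s₂ + s₁) (me s₂ e₁ e₂) (mf s₂ e₂ f₁ f₂))
    (h3 : ∀ s e f, P s e f → P (-s) (ie s e) (iF s e f)) : Subgroup (Equiv.Perm (X p)) where
  carrier := {π | ∃ s e f, P s e f ∧ π = mk s e f}
  one_mem' := ⟨0, 0, 0, h1, mk_one.symm⟩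
  mul_mem' := by
    rintro _ _ ⟨s₁, e₁, f₁, hP₁, rfl⟩ ⟨s₂, e₂, f₂, hP₂, rfl⟩
    exact ⟨_, _, _, h2 _ _ _ _ _ _ hP₁ hP₂, mk_mul _ _ _ _ _ _⟩
  inv_mem' := by
    rintro _ ⟨s, e, f, hP, rfl⟩
    exact ⟨_, _, _, h3 _ _ _ hP, mk_inv _ _ _⟩

variable (p) in
/-- the group -/
def G₀ : Subgroup (Equiv.Perm (X p)) :=
  GP (fun _ _ f => Aff f) Aff.zero (fun _ _ _ _ _ _ h1 h2 => h1.mf h2) (fun _ _ _ h => h.iF)

variable (p) in
/-- the first factor -/
def A₀ : Subgroup (Equiv.Perm (X p)) :=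
  GP (fun s e f => s = 0 ∧ (∀ m, m ≠ 0 → e m = 0) ∧ Aff f) ⟨rfl, fun _ _ => rfl, Aff.zero⟩
    (by
      rintro s₁ e₁ f₁ s₂ e₂ f₂ ⟨rfl, h1, h1'⟩ ⟨rfl, h2, h2'⟩
      refine ⟨add_zero 0, fun m hm => ?_, h1'.mf h2'⟩
      unfold me
      rw [h2 m hm, add_zero, h1 m hm, add_zero])
    (by
      rintro s e f ⟨rfl, h1, h1'⟩
      refine ⟨neg_zero, fun m hm => ?_, h1'.iF⟩
      unfold ie
      rw [sub_zero, h1 m hm, neg_zero])

variable (p) in
/-- the second factor -/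
def B₀ [hp : Fact p.Prime] : Subgroup (Equiv.Perm (X p)) :=
  GP (fun _ e f => ∑ m, e m = 0 ∧ f = 0) ⟨by simp, rfl⟩
    (by
      rintro s₁ e₁ f₁ s₂ e₂ f₂ ⟨h1, rfl⟩ ⟨h2, rfl⟩
      refine ⟨?_, ?_⟩
      · unfold me
        rw [Finset.sum_add_distrib, h2, zero_add, ← h1]
        exact Fintype.sum_equiv (Equiv.addRight s₂) _ _ (fun m => rfl)
      · funext j w; simp [mf])
    (by
      rintro s e f ⟨h1, rfl⟩
      refine ⟨?_, ?_⟩
      · unfold ie
        rw [Finset.sum_neg_distrib, neg_eq_zero, ← h1]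
        exact Fintype.sum_equiv (Equiv.subRight s) _ _ (fun m => rfl)
      · funext j w; simp [iF])

theorem A₀_le : A₀ p ≤ G₀ p := by
  rintro _ ⟨s, e, f, ⟨_, _, h⟩, rfl⟩
  exact ⟨s, e, f, h, rfl⟩

theorem B₀_le [hp : Fact p.Prime] : B₀ p ≤ G₀ p := by
  rintro _ ⟨s, e, f, ⟨_, rfl⟩, rfl⟩
  exact ⟨s, e, 0, Aff.zero, rfl⟩

theorem factor [hp : Fact p.Prime] (π : Equiv.Perm (X p)) (h : π ∈ G₀ p) : ∃ a ∈ A₀ p, ∃ b ∈ B₀ p, π = a * b := by
  obtain ⟨s, e, f, hf, rfl⟩ := h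
  set c := ∑ m, e m with hc
  set e' : ZMod p → ZMod p := fun m => e m - if m = -s then c else 0 with he'
  have hb : mk s e' 0 ∈ B₀ p := by
    refine ⟨s, e', 0, ⟨?_, rfl⟩, rfl⟩
    rw [he', Finset.sum_sub_distrib, Finset.sum_ite_eq' Finset.univ (-s) (fun _ => c)]
    simp [hc]
  refine ⟨mk s e f * (mk s e' 0)⁻¹, ?_, mk s e' 0, hb, by rw [inv_mul_cancel_right]⟩
  rw [mk_inv, mk_mul]
  refine ⟨_, _, _, ⟨by ring, fun m hm => ?_, hf.mf Aff.zero.iF⟩, rfl⟩
  unfold me ie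
  rw [he']
  simp only
  have : m - s ≠ -s := fun h => hm (by
    have := congrArg (· + s) h
    simpa using this)
  rw [if_neg this, ← sub_eq_add_neg m s]
  ring

end Pool.Agent.H785.PE
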