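import Pool.Agent.H785.PE.Wreath

/-!
helper785: a product of a `2`-group of exponent four and one of exponent two with an element of
order sixteen. The group consists of the permutations
`(u, v, y, t) ↦ (u + s, v + h u, (y + n)(· + s, · + h (· + s)), t + f u v y)` of
`ℤ/2 × ℤ/2 × (ℤ/2)^(ℤ/2 × ℤ/2) × ℤ/2`, where `f u v y` is an affine function of
`y (u + 1) 0`, `y (u + 1) 1`.
-/

set_option autoImplicit false

namespace Pool.Agent.H785.PE.Two

abbrev Z2 := ZMod 2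
/-- coordinates -/
abbrev Y := Z2 → Z2 → Z2
/-- the points -/
abbrev X := (Z2 × Z2) × Y × Z2
/-- the functions -/
abbrev F := Z2 → Z2 → Y → Z2

theorem cc (a b : Z2) : a + b + b = a := by revert a b; decide

theorem dbl (a : Z2) : a + a = 0 := by revert a; decide

theorem z2 (a : Z2) : a = 0 ∨ a = 1 := by revert a; decide

/-- the action on the coordinates -/
def tr (s : Z2) (h : Z2 → Z2) (n y : Y) : Y :=
  fun a b => y (a + s) (b + h (a + s)) + n (a + s) (b + h (a + s))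

/-- the permutation with the parameters `s`, `h`, `n`, `f` -/
def mk (s : Z2) (h : Z2 → Z2) (n : Y) (f : F) : Equiv.Perm X where
  toFun x := ((x.1.1 + s, x.1.2 + h x.1.1), tr s h n x.2.1, x.2.2 + f x.1.1 x.1.2 x.2.1)
  invFun x := ((x.1.1 + s, x.1.2 + h (x.1.1 + s)),
    (fun a b => x.2.1 (a + s) (b + h a) + n a b),
    x.2.2 + f (x.1.1 + s) (x.1.2 + h (x.1.1 + s)) (fun a b => x.2.1 (a + s) (b + h a) + n a b))
  left_inv := by
    rintro ⟨⟨u, v⟩, y, t⟩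
    have e : (fun a b => tr s h n y (a + s) (b + h a) + n a b) = y := by
      funext a b
      simp only [tr, cc]
    simp only [cc, e]
  right_inv := by
    rintro ⟨⟨u, v⟩, y, t⟩
    have e : tr s h n (fun a b => y (a + s) (b + h a) + n a b) = y := by
      funext a b
      simp only [tr, cc]
    simp only [cc, e]

theorem mk_apply (s : Z2) (h : Z2 → Z2) (n : Y) (f : F) (x : X) : mk s h n f x =
    ((x.1.1 + s, x.1.2 + h x.1.1), tr s h n x.2.1, x.2.2 + f x.1.1 x.1.2 x.2.1) := rfl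

def mh (s₂ : Z2) (h₁ h₂ : Z2 → Z2) : Z2 → Z2 := fun u => h₂ u + h₁ (u + s₂)
def mn (s₂ : Z2) (h₂ : Z2 → Z2) (n₁ n₂ : Y) : Y := fun u v => n₂ u v + n₁ (u + s₂) (v + h₂ u)
def mf (s₂ : Z2) (h₂ : Z2 → Z2) (n₂ : Y) (f₁ f₂ : F) : F :=
  fun u v y => f₂ u v y + f₁ (u + s₂) (v + h₂ u) (tr s₂ h₂ n₂ y)

theorem mk_mul (s₁ s₂ : Z2) (h₁ h₂ : Z2 → Z2) (n₁ n₂ : Y) (f₁ f₂ : F) :
    mk s₁ h₁ n₁ f₁ * mk s₂ h₂ n₂ f₂ =
      mk (s₁ + s₂) (mh s₂ h₁ h₂) (mn s₂ h₂ n₁ n₂) (mf s₂ h₂ n₂ f₁ f₂) := by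
  apply Equiv.ext
  rintro ⟨⟨u, v⟩, y, t⟩
  rw [Equiv.Perm.mul_apply]
  simp only [mk_apply, mh, mn, mf]
  refine Prod.ext (Prod.ext (by simp only; ring) (by simp only; ring))
    (Prod.ext ?_ (by simp only; ring))
  funext a b
  simp only [tr, mh, mn]
  have e1 : a + (s₁ + s₂) + s₂ = a + s₁ := by rw [← add_assoc, cc]
  have e2 : a + s₁ + s₂ = a + (s₁ + s₂) := by ring
  simp only [e1, e2]
  have e3 : b + (h₂ (a + (s₁ + s₂)) + h₁ (a + s₁)) = b + h₁ (a + s₁) + h₂ (a + (s₁ + s₂)) := by ring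
  rw [e3, cc]
  ring

theorem mk_congr {s s' : Z2} {h h' : Z2 → Z2} {n n' : Y} {f f' : F} (e1 : s = s') (e2 : h = h')
    (e3 : n = n') (e4 : f = f') : mk s h n f = mk s' h' n' f' := by
  rw [e1, e2, e3, e4]

theorem mk_one : mk 0 0 0 0 = 1 := by
  apply Equiv.ext
  rintro ⟨⟨u, v⟩, y, t⟩
  rw [mk_apply]
  have : tr 0 0 0 y = y := by funext a b; simp [tr]
  simp [this]

/-- inverse -/
theorem mk_inv (s : Z2) (h : Z2 → Z2) (n : Y) (f : F) :
    (mk s h n f)⁻¹ = mk s (fun a => h (a + s)) (fun a b => n (a + s) (b + h (a + s)))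
      (fun a b y => f (a + s) (b + h (a + s)) (fun a b => y (a + s) (b + h a) + n a b)) := by
  apply Equiv.ext
  rintro ⟨⟨u, v⟩, y, t⟩
  show (mk s h n f).symm _ = _
  show ((u + s, v + h (u + s)), (fun a b => y (a + s) (b + h a) + n a b),
    t + f (u + s) (v + h (u + s)) (fun a b => y (a + s) (b + h a) + n a b)) = _
  rw [mk_apply]
  refine Prod.ext rfl (Prod.ext ?_ rfl)
  funext a b
  simp only [tr, cc]

/-- `f u v y` is an affine function of `y (u + 1) 0`, `y (u + 1) 1`. -/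
def Aff (f : F) : Prop :=
  ∀ u v, ∃ α β γ : Z2, ∀ y : Y, f u v y = α + β * y (u + 1) 0 + γ * y (u + 1) 1

theorem Aff.zero : Aff (0 : F) := fun _ _ => ⟨0, 0, 0, fun y => by simp⟩

theorem Aff.mf {s₂ : Z2} {h₂ : Z2 → Z2} {n₂ : Y} {f₁ f₂ : F} (H₁ : Aff f₁) (H₂ : Aff f₂) :
    Aff (mf s₂ h₂ n₂ f₁ f₂) := by
  intro u v
  obtain ⟨a2, b2, c2, e2⟩ := H₂ u v
  obtain ⟨a1, b1, c1, e1⟩ := H₁ (u + s₂) (v + h₂ u)
  have e3 : u + s₂ + 1 + s₂ = u + 1 := by rw [add_right_comm u s₂ 1, cc]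
  rcases z2 (h₂ (u + 1)) with h | h
  · refine ⟨a2 + a1 + b1 * n₂ (u + 1) 0 + c1 * n₂ (u + 1) 1, b2 + b1, c2 + c1, fun y => ?_⟩
    simp only [Two.mf, e2, e1, tr, e3, h, add_zero]
    ring
  · refine ⟨a2 + a1 + b1 * n₂ (u + 1) 1 + c1 * n₂ (u + 1) 0, b2 + c1, c2 + b1, fun y => ?_⟩
    simp only [Two.mf, e2, e1, tr, e3, h, zero_add, show (1 : Z2) + 1 = 0 from rfl]
    ring

theorem Aff.inv {s : Z2} {h : Z2 → Z2} {n : Y} {f : F} (H : Aff f) :
    Aff (fun a b y => f (a + s) (b + h (a + s)) (fun a b => y (a + s) (b + h a) + n a b)) := by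
  intro u v
  obtain ⟨a1, b1, c1, e1⟩ := H (u + s) (v + h (u + s))
  have e3 : u + s + 1 + s = u + 1 := by rw [add_right_comm u s 1, cc]
  rcases z2 (h (u + s + 1)) with hh | hh
  · refine ⟨a1 + b1 * n (u + s + 1) 0 + c1 * n (u + s + 1) 1, b1, c1, fun y => ?_⟩
    simp only [e1, e3, hh, add_zero]
    ring
  · refine ⟨a1 + b1 * n (u + s + 1) 0 + c1 * n (u + s + 1) 1, c1, b1, fun y => ?_⟩
    simp only [e1, e3, hh, zero_add, show (1 : Z2) + 1 = 0 from rfl]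
    ring

/-- the group -/
def G₀ : Subgroup (Equiv.Perm X) where
  carrier := {π | ∃ s h n f, Aff f ∧ π = mk s h n f}
  one_mem' := ⟨0, 0, 0, 0, Aff.zero, mk_one.symm⟩
  mul_mem' := by
    rintro _ _ ⟨s₁, h₁, n₁, f₁, H₁, rfl⟩ ⟨s₂, h₂, n₂, f₂, H₂, rfl⟩
    exact ⟨_, _, _, _, H₁.mf H₂, mk_mul _ _ _ _ _ _ _ _⟩
  inv_mem' := by
    rintro _ ⟨s, h, n, f, H, rfl⟩
    exact ⟨_, _, _, _, H.inv, mk_inv _ _ _ _⟩

/-- the first factor -/
def A₀ : Subgroup (Equiv.Perm X) where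
  carrier := {π | ∃ h n f, h 1 = 0 ∧ Aff f ∧ π = mk 0 h n f}
  one_mem' := ⟨0, 0, 0, rfl, Aff.zero, mk_one.symm⟩
  mul_mem' := by
    rintro _ _ ⟨h₁, n₁, f₁, H₁', H₁, rfl⟩ ⟨h₂, n₂, f₂, H₂', H₂, rfl⟩
    refine ⟨_, _, _, ?_, H₁.mf H₂, mk_mul _ _ _ _ _ _ _ _⟩
    simp [mh, H₁', H₂']
  inv_mem' := by
    rintro _ ⟨h, n, f, H', H, rfl⟩
    refine ⟨_, _, _, ?_, H.inv, mk_inv _ _ _ _⟩
    simp [H']

/-- the second factor -/
def B₀ : Subgroup (Equiv.Perm X) where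
  carrier := {π | ∃ s k : Z2, π = mk s (fun _ => k) 0 0}
  one_mem' := ⟨0, 0, mk_one.symm⟩
  mul_mem' := by
    rintro _ _ ⟨s₁, k₁, rfl⟩ ⟨s₂, k₂, rfl⟩
    refine ⟨s₁ + s₂, k₂ + k₁, ?_⟩
    rw [mk_mul]
    refine mk_congr rfl rfl ?_ ?_
    · funext u v; simp [mn]
    · funext u v y; simp [mf]
  inv_mem' := by
    rintro _ ⟨s, k, rfl⟩
    refine ⟨s, k, ?_⟩
    rw [mk_inv]
    exact mk_congr rfl rfl rfl rfl

theorem A₀_le : A₀ ≤ G₀ := by
  rintro _ ⟨h, n, f, _, H, rfl⟩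
  exact ⟨0, h, n, f, H, rfl⟩

theorem B₀_le : B₀ ≤ G₀ := by
  rintro _ ⟨s, k, rfl⟩
  exact ⟨s, _, 0, 0, Aff.zero, rfl⟩

theorem factor (π : Equiv.Perm X) (hπ : π ∈ G₀) : ∃ a ∈ A₀, ∃ b ∈ B₀, π = a * b := by
  obtain ⟨s, h, n, f, H, rfl⟩ := hπ
  refine ⟨mk s h n f * (mk s (fun _ => h (1 + s)) 0 0)⁻¹, ?_, mk s (fun _ => h (1 + s)) 0 0,
    ⟨s, _, rfl⟩, by rw [inv_mul_cancel_right]⟩
  rw [mk_inv, mk_mul, dbl]
  refine ⟨_, _, _, ?_, H.mf ?_, rfl⟩
  · simp only [mh]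
    exact dbl _
  · exact Aff.zero.inv

theorem sq (s : Z2) (h : Z2 → Z2) (n : Y) (f : F) : (mk s h n f) ^ 2 =
    mk 0 (mh s h h) (mn s h n n) (mf s h n f f) := by
  rw [pow_two, mk_mul, dbl]

theorem pow16 (π : Equiv.Perm X) (hπ : π ∈ G₀) : π ^ 16 = 1 := by
  obtain ⟨s, h, n, f, H, rfl⟩ := hπ
  rw [show (16 : ℕ) = 2 * 2 * 2 * 2 by norm_num, pow_mul, pow_mul, pow_mul, sq]
  generalize mh s h h = h1
  generalize mn s h n n = n1
  generalize mf s h n f f = f1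
  rw [sq]
  have e1 : mh 0 h1 h1 = 0 := by
    funext u; simp only [mh, add_zero]; exact dbl _
  rw [e1]
  generalize mn 0 h1 n1 n1 = n2
  generalize mf 0 h1 n1 f1 f1 = f2
  rw [sq]
  have e2 : mh 0 (0 : Z2 → Z2) 0 = 0 := by funext u; simp [mh]
  have e3 : mn 0 0 n2 n2 = 0 := by
    funext u v; simp only [mn, add_zero, Pi.zero_apply]; exact dbl _
  rw [e2, e3]
  generalize mf 0 0 n2 f2 f2 = f3
  rw [sq, e2, ← mk_one]
  have e4 : mn 0 0 (0 : Y) 0 = 0 := by funext u v; simp [mn]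
  have e5 : mf 0 0 0 f3 f3 = 0 := by
    funext u v y
    have : tr 0 0 0 y = y := by funext a b; simp [tr]
    simp only [mf, add_zero, Pi.zero_apply, this]
    exact dbl _
  rw [e4, e5]

theorem B_pow (b : Equiv.Perm X) (hb : b ∈ B₀) : b ^ 2 = 1 := by
  obtain ⟨s, k, rfl⟩ := hb
  rw [sq, ← mk_one]
  refine mk_congr rfl ?_ ?_ ?_
  · funext u; simp only [mh]; exact dbl _
  · funext u v; simp [mn]
  · funext u v y; simp [mf]

theorem A_pow (a : Equiv.Perm X) (ha : a ∈ A₀) : a ^ 4 = 1 := by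
  obtain ⟨h, n, f, h1, H, rfl⟩ := ha
  rw [show (4 : ℕ) = 2 * 2 by norm_num, pow_mul, sq, sq, ← mk_one]
  have e1 : mh 0 h h = 0 := by
    funext u; simp only [mh, add_zero]; exact dbl _
  rw [e1]
  refine mk_congr rfl ?_ ?_ ?_
  · funext u; simp [mh]
  · funext u v; simp only [mn, add_zero, Pi.zero_apply]; exact dbl _
  · funext u v y
    choose α β γ hf using H
    have t2 : (2 : Z2) = 0 := rfl
    have t4 : (4 : Z2) = 0 := rfl
    have t6 : (6 : Z2) = 0 := rfl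
    simp only [mf, mn, tr, add_zero, Pi.zero_apply, hf]
    rcases z2 u with rfl | rfl
    · rcases z2 (h 0) with h0 | h0 <;> rcases z2 v with rfl | rfl <;>
        simp only [h0, h1, zero_add, add_zero, show (1 : Z2) + 1 = 0 from rfl] <;> ring_nf <;>
        simp only [t2, t4, t6, mul_zero, add_zero]
    · rcases z2 (h 0) with h0 | h0 <;> rcases z2 v with rfl | rfl <;>
        simp only [h0, h1, zero_add, add_zero, show (1 : Z2) + 1 = 0 from rfl] <;> ring_nf <;>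
        simp only [t2, t4, t6, mul_zero, add_zero]

/-- the element of order `16` -/
def gg : Equiv.Perm X :=
  mk 1 (fun u => if u = 0 then 1 else 0) (fun u v => if u = 0 ∧ v = 0 then 1 else 0)
    (fun u v y => if u = 0 ∧ v = 0 then y 1 0 else 0)

theorem gg_mem : gg ∈ G₀ := by
  refine ⟨_, _, _, _, fun u v => ?_, rfl⟩
  by_cases h : u = 0 ∧ v = 0
  · obtain ⟨rfl, rfl⟩ := h
    exact ⟨0, 1, 0, fun y => by simp⟩
  · exact ⟨0, 0, 0, fun y => by rw [if_neg h]; simp⟩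

theorem gg_pow : gg ^ 8 ≠ 1 := by
  intro h
  have h1 := congrArg (fun π : Equiv.Perm X => (π ((0, 0), 0, 0)).2.2) h
  revert h1
  decide

theorem aa_ne : (mk 0 (fun u => if u = 0 then 1 else 0)
    (fun u v => if u = 0 ∧ v = 0 then 1 else 0) 0) ^ 2 ^ 1 ≠ 1 := by
  intro h
  have h1 := congrArg (fun π : Equiv.Perm X => (π ((0, 0), 0, 0)).2.1 0 0) h
  revert h1
  decide

theorem bb_ne : mk 1 (fun _ => 0) 0 0 ≠ 1 := by
  intro h
  have h1 := congrArg (fun π : Equiv.Perm X => (π ((0, 0), 0, 0)).1.1) h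
  revert h1
  decide

theorem base : E 2 2 1 4 := by
  have hp : Fact (Nat.Prime 2) := ⟨Nat.prime_two⟩
  refine ⟨G₀, inferInstance, inferInstance, A₀.subgroupOf G₀, B₀.subgroupOf G₀,
    ?_, ?_, ?_, ?_, ?_, ?_, ?_⟩
  · intro π
    exact ⟨4, Subtype.ext (by
      rw [Subgroup.coe_pow, Subgroup.coe_one]; exact pow16 _ π.2)⟩
  · intro g
    obtain ⟨a, ha, b, hb, hab⟩ := factor g.1 g.2
    exact ⟨⟨a, A₀_le ha⟩, ha, ⟨b, B₀_le hb⟩, hb, Subtype.ext hab⟩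
  · intro a ha
    exact Subtype.ext (by
      rw [Subgroup.coe_pow, Subgroup.coe_one]; exact A_pow _ ha)
  · have hm : mk 0 (fun u => if u = 0 then 1 else 0) (fun u v => if u = 0 ∧ v = 0 then 1 else 0) 0 ∈
        A₀ := ⟨_, _, _, by simp, Aff.zero, rfl⟩
    refine ⟨⟨_, A₀_le hm⟩, hm, ?_⟩
    rw [orderOf_eq_prime_pow (p := 2) (n := 1)]
    · intro h
      have h1 := congrArg Subtype.val h
      rw [Subgroup.coe_pow, Subgroup.coe_one] at h1
      exact aa_ne h1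
    · exact Subtype.ext (by rw [Subgroup.coe_pow, Subgroup.coe_one]; exact A_pow _ hm)
  · intro b hb
    exact Subtype.ext (by
      rw [Subgroup.coe_pow, Subgroup.coe_one, pow_one]; exact B_pow _ hb)
  · have hm : mk 1 (fun _ => 0) 0 0 ∈ B₀ := ⟨_, _, rfl⟩
    refine ⟨⟨_, B₀_le hm⟩, hm, ?_⟩
    rw [pow_one, orderOf_eq_prime (p := 2)]
    · exact Subtype.ext (by rw [Subgroup.coe_pow, Subgroup.coe_one]; exact B_pow _ hm)
    · intro h
      have h1 := congrArg Subtype.val h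
      rw [Subgroup.coe_one] at h1
      exact bb_ne h1
  · refine ⟨⟨_, gg_mem⟩, ?_⟩
    rw [orderOf_eq_prime_pow (p := 2) (n := 3)]
    · intro h
      have h1 := congrArg Subtype.val h
      rw [Subgroup.coe_pow, Subgroup.coe_one] at h1
      exact gg_pow h1
    · exact Subtype.ext (by rw [Subgroup.coe_pow, Subgroup.coe_one]; exact pow16 _ gg_mem)

end Pool.Agent.H785.PE.Two
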