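import Pool.Agent.H785.PE.Main
import Pool.Agent.H785.PE.Two

/-!
helper785: the pairs of exponents for which the product of the exponents is a bound.
-/

set_option autoImplicit false

namespace Pool.Agent.H785.PE

/-- `n` copies of `h` -/
theorem E.mul {p : ℕ} [hp : Fact p.Prime] {s t m : ℕ} (h : E p s t m) (n : ℕ) :
    E p (n * s) (n * t) (n * m) := by
  induction n with
  | zero => simpa using E.zero p
  | succ n ih =>
    have := ih.comp h
    rwa [← Nat.succ_mul, ← Nat.succ_mul, ← Nat.succ_mul] at this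

theorem two_all (s t : ℕ) : E 2 s t (s + t + min (min s t) ((s + t) / 3)) := by
  haveI : Fact (Nat.Prime 2) := ⟨Nat.prime_two⟩
  set g := min (min s t) ((s + t) / 3) with hg
  have g1 : g ≤ s := (min_le_left _ _).trans (min_le_left _ _)
  have g2 : g ≤ t := (min_le_left _ _).trans (min_le_right _ _)
  have g3 : 3 * g ≤ s + t := by
    have : g ≤ (s + t) / 3 := min_le_right _ _
    omega
  obtain ⟨k, l, i, j, hk, hs, ht⟩ : ∃ k l i j : ℕ, k + l = g ∧ s = 2 * k + l + i ∧
      t = k + 2 * l + j := by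
    rcases le_total g (s - g) with h | h
    · exact ⟨g, 0, s - 2 * g, t - g, by omega, by omega, by omega⟩
    · exact ⟨s - g, 2 * g - s, 0, s + t - 3 * g, by omega, by omega, by omega⟩
  have h1 := (((Two.base.mul k).comp (Two.base.symm.mul l)).comp ((E.left 2).mul i)).comp
    ((E.left 2).symm.mul j)
  convert h1 using 1
  · omega
  · omega
  · omega

/-- A group which is the product of two subgroups of exponent at most two has exponent at most
four. -/
theorem four {G : Type*} [Group G] (A B : Subgroup G) (hf : ∀ g : G, ∃ a ∈ A, ∃ b ∈ B, g = a * b)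
    (hA : ∀ a ∈ A, a * a = 1) (hB : ∀ b ∈ B, b * b = 1) (g : G) : g ^ 4 = 1 := by
  obtain ⟨a, ha, b, hb, rfl⟩ := hf g
  obtain ⟨a', ha', b', hb', h⟩ := hf (b * a)
  have iA : ∀ a ∈ A, a⁻¹ = a := fun a ha => inv_eq_of_mul_eq_one_left (hA a ha)
  have iB : ∀ b ∈ B, b⁻¹ = b := fun b hb => inv_eq_of_mul_eq_one_left (hB b hb)
  -- `a * b = b' * a'`
  have h2 : a * b = b' * a' := by
    have := congrArg (·⁻¹) h
    simp only [mul_inv_rev] at this
    rwa [iA a ha, iB b hb, iA a' ha', iB b' hb'] at this
  have mA : ∀ x ∈ A, ∀ y ∈ A, x * y = y * x := by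
    intro x hx y hy
    have := iA (x * y) (A.mul_mem hx hy)
    rw [mul_inv_rev, iA x hx, iA y hy] at this
    exact this.symm
  have mB : ∀ x ∈ B, ∀ y ∈ B, x * y = y * x := by
    intro x hx y hy
    have := iB (x * y) (B.mul_mem hx hy)
    rw [mul_inv_rev, iB x hx, iB y hy] at this
    exact this.symm
  set u := (a * b) * (a * b) with hu
  -- `a` and `a'` invert `u`
  have e1 : u = (a * a') * (b' * b) := by
    rw [hu, mul_assoc, ← mul_assoc b a b, h]
    simp only [mul_assoc]
  have e2 : a * u * a = u⁻¹ := by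
    rw [hu]
    simp only [mul_inv_rev, iA a ha, iB b hb, ← mul_assoc, hA a ha, one_mul]
  have e3 : a' * u * a' = u⁻¹ := by
    rw [hu, h2]
    simp only [mul_inv_rev, iA a' ha', iB b' hb']
    rw [show a' * (b' * a' * (b' * a')) * a' = a' * b' * a' * b' * (a' * a') by
      simp only [mul_assoc], hA a' ha', mul_one]
    simp only [mul_assoc]
  have e4 : (a * a') * u = u * (a * a') := by
    have h5 : a' * u = u⁻¹ * a' := by
      rw [← e3, mul_assoc, hA a' ha', mul_one]
    have h6 : a * u⁻¹ = u * a := by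
      have : a * u = u⁻¹ * a := by rw [← e2, mul_assoc, hA a ha, mul_one]
      calc a * u⁻¹ = u * (u⁻¹ * a) * u⁻¹ := by group
        _ = u * (a * u) * u⁻¹ := by rw [this]
        _ = u * a := by group
    rw [mul_assoc, h5, ← mul_assoc, h6, mul_assoc]
  set x := a * a' with hx
  set y := b' * b with hy
  have hxA : x * x = 1 := hA x (A.mul_mem ha ha')
  have hyB : y * y = 1 := hB y (B.mul_mem hb' hb)
  have e5 : x * y = y * x := by
    rw [e1] at e4
    have h7 : x * (x * y) = x * (y * x) := by rw [e4, mul_assoc]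
    exact mul_left_cancel h7
  have e6 : u * u = 1 := by
    rw [e1]
    calc x * y * (x * y) = x * (y * x) * y := by simp only [mul_assoc]
      _ = x * (x * y) * y := by rw [e5]
      _ = (x * x) * (y * y) := by simp only [mul_assoc]
      _ = 1 := by rw [hxA, hyB, one_mul]
  calc (a * b) ^ 4 = u * u := by
        rw [hu]; simp only [pow_succ, pow_zero, one_mul, mul_assoc]
    _ = 1 := e6

/-- the form of `E` used in the statement -/
theorem E.result {p : ℕ} [hp : Fact p.Prime] {s t m : ℕ} (h : E p s t m) :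
    ∃ (G : Type) (_ : Group G) (_ : Finite G) (A B : Subgroup G), IsPGroup p G ∧
      (∀ g : G, ∃ a ∈ A, ∃ b ∈ B, g = a * b) ∧
      Monoid.exponent A = p ^ s ∧ Monoid.exponent B = p ^ t ∧ p ^ m ∣ Monoid.exponent G := by
  obtain ⟨G, i1, i2, A, B, hG, hf, hA, ⟨a, ha, ha'⟩, hB, ⟨b, hb, hb'⟩, ⟨g, hg⟩⟩ := h
  refine ⟨G, i1, i2, A, B, hG, hf, ?_, ?_, hg.trans (Monoid.order_dvd_exponent g)⟩
  · apply Nat.dvd_antisymm
    · apply Monoid.exponent_dvd_of_forall_pow_eq_one
      intro x
      exact Subtype.ext (by rw [Subgroup.coe_pow, Subgroup.coe_one]; exact hA x x.2)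
    · have := Monoid.order_dvd_exponent (⟨a, ha⟩ : A)
      rw [Subgroup.orderOf_mk] at this
      exact ha'.trans this
  · apply Nat.dvd_antisymm
    · apply Monoid.exponent_dvd_of_forall_pow_eq_one
      intro x
      exact Subtype.ext (by rw [Subgroup.coe_pow, Subgroup.coe_one]; exact hB x x.2)
    · have := Monoid.order_dvd_exponent (⟨b, hb⟩ : B)
      rw [Subgroup.orderOf_mk] at this
      exact hb'.trans this

end Pool.Agent.H785.PE
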