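import Pool.Agent.H785.PE.Base

/-!
helper785: orders of elements in the group `G₀ p`.
-/

set_option autoImplicit false

namespace Pool.Agent.H785.PE

variable {p : ℕ} [hp : Fact p.Prime]

theorem sum_range_cast (h : ZMod p → ZMod p) : ∑ k ∈ Finset.range p, h k = ∑ x, h x := by
  have : NeZero p := ⟨hp.out.ne_zero⟩
  refine Finset.sum_bij (fun k _ => (k : ZMod p)) (fun _ _ => Finset.mem_univ _) ?_ ?_ ?_
  · intro a ha b hb hab
    have := congrArg ZMod.val hab
    rwa [ZMod.val_cast_of_lt (Finset.mem_range.1 ha),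
      ZMod.val_cast_of_lt (Finset.mem_range.1 hb)] at this
  · intro b _
    exact ⟨b.val, Finset.mem_range.2 (ZMod.val_lt b), ZMod.natCast_zmod_val b⟩
  · intro a _; rfl

theorem sum_cast (hp2 : p ≠ 2) : ∑ k ∈ Finset.range p, (k : ZMod p) = 0 := by
  rw [← Nat.cast_sum, ZMod.natCast_eq_zero_iff]
  have h := Finset.sum_range_id_mul_two p
  have h2 : p ∣ (∑ i ∈ Finset.range p, i) * 2 := by rw [h]; exact dvd_mul_right _ _
  rcases (Nat.Prime.dvd_mul hp.out).1 h2 with h3 | h3
  · exact h3
  · exact absurd ((Nat.prime_dvd_prime_iff_eq hp.out Nat.prime_two).1 h3) hp2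

/-- powers of the elements with `s = 0` -/
theorem pow_zero_s (e : ZMod p → ZMod p) (f : Fn p) (n : ℕ) :
    (mk 0 e f) ^ n = mk 0 (fun m => n * e m)
      (fun j w => ∑ k ∈ Finset.range n, f j (fun m => w m + k * e m)) := by
  induction n with
  | zero =>
    rw [pow_zero, ← mk_one]
    congr 1
    · funext m; simp
  | succ n ih =>
    rw [pow_succ', ih, mk_mul]
    congr 1
    · simp
    · funext m; unfold me; push_cast; rw [add_zero]; ring
    · funext j w
      unfold mf
      simp only [add_zero, sub_zero]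
      rw [Finset.sum_range_succ]

theorem pow_f_zero (s : ZMod p) (e : ZMod p → ZMod p) (n : ℕ) :
    (mk s e 0) ^ n = mk ((n : ZMod p) * s) (fun m => ∑ k ∈ Finset.range n, e (m + k * s)) 0 := by
  induction n with
  | zero =>
    rw [pow_zero, ← mk_one]
    congr 1
    · simp
  | succ n ih =>
    rw [pow_succ', ih, mk_mul]
    congr 1
    · push_cast; ring
    · funext m
      unfold me
      rw [Finset.sum_range_succ]
    · funext j w
      simp [mf]

theorem A_pow (hp2 : p ≠ 2) (a : Equiv.Perm (X p)) (ha : a ∈ A₀ p) : a ^ p = 1 := by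
  obtain ⟨s, e, f, ⟨rfl, he, hf⟩, rfl⟩ := ha
  rw [pow_zero_s, ← mk_one]
  congr 1
  · funext m; simp
  · funext j w
    obtain ⟨u, v, huv⟩ := hf j w 0
    have h : ∀ k ∈ Finset.range p, f j (fun m => w m + k * e m) = u + (w 0 + k * e 0) * v := by
      intro k _
      rw [← huv]
      congr 1
      funext m
      by_cases hm : m = 0
      · subst hm; simp
      · rw [Function.update_of_ne hm, he m hm, mul_zero, add_zero]
    rw [Finset.sum_congr rfl h, Finset.sum_add_distrib, ← Finset.sum_mul,
      Finset.sum_add_distrib, ← Finset.sum_mul, sum_cast hp2]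
    simp

theorem B_pow (b : Equiv.Perm (X p)) (hb : b ∈ B₀ p) : b ^ p = 1 := by
  obtain ⟨s, e, f, ⟨he, rfl⟩, rfl⟩ := hb
  rw [pow_f_zero, ← mk_one]
  congr 1
  · simp
  · funext m
    rw [sum_range_cast (fun x => e (m + x * s))]
    by_cases hs : s = 0
    · subst hs
      simp
    · rw [← Fintype.sum_equiv ((Equiv.mulRight₀ s hs).trans (Equiv.addLeft m))
        (fun x => e (m + x * s)) e (fun x => rfl)] at he
      exact he

/-- the `p`-th power of an element has `s = 0` -/
theorem pow_s (s : ZMod p) (e : ZMod p → ZMod p) (f : Fn p) (n : ℕ) :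
    ∃ e' f', (mk s e f) ^ n = mk ((n : ZMod p) * s) e' f' := by
  induction n with
  | zero => exact ⟨0, 0, by rw [pow_zero, ← mk_one]; congr 1; simp⟩
  | succ n ih =>
    obtain ⟨e', f', h⟩ := ih
    refine ⟨me ((n : ZMod p) * s) e e', mf ((n : ZMod p) * s) e' f f', ?_⟩
    rw [pow_succ', h, mk_mul]
    congr 1
    push_cast; ring

theorem pow_cube (π : Equiv.Perm (X p)) (h : π ∈ G₀ p) : π ^ p ^ 3 = 1 := by
  obtain ⟨s, e, f, -, rfl⟩ := h
  have e3 : p ^ 3 = p * p * p := by ring
  rw [e3, pow_mul, pow_mul]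
  obtain ⟨e', f', h1⟩ := pow_s s e f p
  rw [h1, show ((p : ℕ) : ZMod p) * s = 0 by simp, pow_zero_s, pow_zero_s, ← mk_one]
  congr 1
  · funext m; simp
  · funext j w
    simp

/-- the function of the element of order `p ^ 3` -/
def ff (p : ℕ) [Fact p.Prime] : Fn p :=
  fun j w => if j = 0 then ∏ i ∈ Finset.univ.erase (0 : ZMod p), w i else 0

theorem Aff_ff : Aff (ff p) := by
  intro j w i
  by_cases hj : j = 0
  · by_cases hi : i ∈ Finset.univ.erase (0 : ZMod p)
    · refine ⟨0, ∏ m ∈ (Finset.univ.erase (0 : ZMod p)).erase i, w m, fun x => ?_⟩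
      unfold ff
      rw [if_pos hj, ← Finset.mul_prod_erase _ _ hi, Function.update_self, zero_add]
      congr 1
      refine Finset.prod_congr rfl fun m hm => ?_
      rw [Function.update_of_ne (Finset.ne_of_mem_erase hm)]
    · refine ⟨∏ m ∈ Finset.univ.erase (0 : ZMod p), w m, 0, fun x => ?_⟩
      unfold ff
      rw [if_pos hj, mul_zero, add_zero]
      refine Finset.prod_congr rfl fun m hm => ?_
      rw [Function.update_of_ne (show m ≠ i from fun h => hi (h ▸ hm))]
  · exact ⟨0, 0, fun x => by unfold ff; rw [if_neg hj]; simp⟩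

/-- the element of order `p ^ 3` -/
def gg (p : ℕ) [Fact p.Prime] : Equiv.Perm (X p) :=
  mk 1 (fun m => if m = 0 then 1 else 0) (ff p)

/-- the second coordinate of the orbit -/
def ww (p : ℕ) (n : ℕ) : ZMod p → ZMod p :=
  fun m => ∑ l ∈ Finset.range n, if ((l + 1 : ℕ) : ZMod p) = m then 1 else 0

theorem orbit (n : ℕ) : ((gg p) ^ n) (0, 0, 0) =
    ((n : ZMod p), ww p n, ∑ l ∈ Finset.range n, ff p l (ww p l)) := by
  induction n with
  | zero =>
    refine Prod.ext (by simp) (Prod.ext ?_ (by simp))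
    funext m
    simp [ww]
  | succ n ih =>
    rw [pow_succ', Equiv.Perm.mul_apply, ih]
    unfold gg
    rw [mk_apply]
    refine Prod.ext (by simp) (Prod.ext ?_ ?_)
    · funext m
      simp only [ww]
      rw [Finset.sum_range_succ']
      congr 1
      · refine Finset.sum_congr rfl fun l _ => ?_
        congr 1
        apply propext
        rw [eq_sub_iff_add_eq]
        push_cast
        rfl
      · congr 1
        apply propext
        rw [sub_eq_zero]
        simp [eq_comm]
    · simp only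
      rw [Finset.sum_range_succ]

theorem sum_mul_range (a q : ℕ) (h : ℕ → ZMod p) :
    ∑ l ∈ Finset.range (a * q), h l = ∑ b ∈ Finset.range a, ∑ r ∈ Finset.range q, h (b * q + r) := by
  induction a with
  | zero => simp
  | succ a ih => rw [Nat.succ_mul, Finset.sum_range_add, ih, Finset.sum_range_succ]

theorem ww_mul (a : ℕ) (m : ZMod p) : ww p (a * p) m = a := by
  unfold ww
  rw [sum_mul_range]
  have : ∀ b ∈ Finset.range a, (∑ r ∈ Finset.range p,
      if ((b * p + r + 1 : ℕ) : ZMod p) = m then (1 : ZMod p) else 0) = 1 := by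
    intro b _
    have h := sum_range_cast (p := p) (fun x => if x + 1 = m then (1 : ZMod p) else 0)
    have h2 : ∀ x : ZMod p, (x + 1 = m) = (x = m - 1) := fun x => by
      rw [eq_sub_iff_add_eq]
    simp only [h2, Finset.sum_ite_eq', Finset.mem_univ, if_true] at h
    refine (Finset.sum_congr rfl fun r _ => ?_).trans h
    have h3 : ((b * p + r + 1 : ℕ) : ZMod p) = (r : ZMod p) + 1 := by push_cast; simp
    simp only [h3, h2]
  rw [Finset.sum_congr rfl this]
  simp

theorem gg_pow_ne : (gg p) ^ p ^ 2 ≠ 1 := by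
  intro h
  have h1 := orbit (p := p) (p ^ 2)
  rw [h, Equiv.Perm.one_apply] at h1
  have h2 := congrArg (fun x => x.2.2) h1
  simp only at h2
  rw [show p ^ 2 = p * p by ring, sum_mul_range] at h2
  have h3 : ∀ b ∈ Finset.range p, (∑ r ∈ Finset.range p,
      ff p ((b * p + r : ℕ) : ZMod p) (ww p (b * p + r))) = if b = 0 then 0 else 1 := by
    intro b hb
    rw [Finset.sum_eq_single 0]
    · have : ((b * p + 0 : ℕ) : ZMod p) = 0 := by simp
      unfold ff
      rw [if_pos this]
      simp only [add_zero, ww_mul]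
      rw [Finset.prod_const, Finset.card_erase_of_mem (Finset.mem_univ _), Finset.card_univ,
        ZMod.card]
      split_ifs with h0
      · subst h0
        have := hp.out.two_le
        rw [Nat.cast_zero, zero_pow (by omega)]
      · apply ZMod.pow_card_sub_one_eq_one
        intro h
        rw [ZMod.natCast_eq_zero_iff] at h
        exact absurd (Nat.le_of_dvd (Nat.pos_of_ne_zero h0) h) (by
          have := Finset.mem_range.1 hb; omega)
    · intro r hr hr0
      unfold ff
      rw [if_neg]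
      intro h
      rw [ZMod.natCast_eq_zero_iff, Nat.dvd_add_right (dvd_mul_left _ _)] at h
      exact absurd (Nat.le_of_dvd (Nat.pos_of_ne_zero hr0) h) (by
        have := Finset.mem_range.1 hr; omega)
    · intro h
      exact absurd (Finset.mem_range.2 hp.out.pos) h
  rw [Finset.sum_congr rfl h3] at h2
  have h4 : (∑ b ∈ Finset.range p, if b = 0 then (0 : ZMod p) else 1) = -1 := by
    obtain ⟨q, hq⟩ : ∃ q, p = q + 1 := ⟨p - 1, by have := hp.out.pos; omega⟩
    have h5 : ∀ q : ℕ, (∑ b ∈ Finset.range (q + 1), if b = 0 then (0 : ZMod p) else 1) = q := by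
      intro q
      rw [Finset.sum_range_succ']
      simp
    have h6 : ((q : ℕ) : ZMod p) = -1 := by
      have : ((q + 1 : ℕ) : ZMod p) = 0 := by rw [← hq]; simp
      push_cast at this
      exact eq_neg_of_add_eq_zero_left this
    rw [← h6, ← h5 q]
    rw [← hq]
  rw [h4] at h2
  have : (1 : ZMod p) = 0 := by
    have := congrArg Neg.neg h2
    simpa using this.symm
  exact one_ne_zero this

theorem base (hp2 : p ≠ 2) : E p 1 1 3 := by
  refine ⟨G₀ p, inferInstance, inferInstance, (A₀ p).subgroupOf (G₀ p), (B₀ p).subgroupOf (G₀ p),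
    ?_, ?_, ?_, ?_, ?_, ?_, ?_⟩
  · intro π
    exact ⟨3, Subtype.ext (by
      rw [Subgroup.coe_pow, Subgroup.coe_one]; exact pow_cube _ π.2)⟩
  · intro g
    obtain ⟨a, ha, b, hb, hab⟩ := factor g.1 g.2
    exact ⟨⟨a, A₀_le ha⟩, ha, ⟨b, B₀_le hb⟩, hb, Subtype.ext hab⟩
  · intro a ha
    exact Subtype.ext (by
      rw [Subgroup.coe_pow, Subgroup.coe_one, pow_one]; exact A_pow hp2 _ ha)
  · have hm : mk 0 (fun m => if m = 0 then 1 else 0) (0 : Fn p) ∈ A₀ p :=
      ⟨_, _, _, ⟨rfl, fun m hm => if_neg hm, Aff.zero⟩, rfl⟩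
    refine ⟨⟨_, A₀_le hm⟩, hm, ?_⟩
    rw [pow_one, orderOf_eq_prime (p := p)]
    · exact Subtype.ext (by rw [Subgroup.coe_pow, Subgroup.coe_one]; exact A_pow hp2 _ hm)
    · intro h
      have h1 := congrArg Subtype.val h
      rw [Subgroup.coe_one] at h1
      have h2 := congrArg (fun π => (π (0, 0, 0)).2.1 0) h1
      simp [mk_apply] at h2
  · intro b hb
    exact Subtype.ext (by
      rw [Subgroup.coe_pow, Subgroup.coe_one, pow_one]; exact B_pow _ hb)
  · have hm : mk 1 0 (0 : Fn p) ∈ B₀ p := ⟨_, _, _, ⟨by simp, rfl⟩, rfl⟩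
    refine ⟨⟨_, B₀_le hm⟩, hm, ?_⟩
    rw [pow_one, orderOf_eq_prime (p := p)]
    · exact Subtype.ext (by rw [Subgroup.coe_pow, Subgroup.coe_one]; exact B_pow _ hm)
    · intro h
      have h1 := congrArg Subtype.val h
      rw [Subgroup.coe_one] at h1
      have h2 := congrArg (fun π => (π (0, 0, 0)).1) h1
      simp [mk_apply] at h2
  · have hm : gg p ∈ G₀ p := ⟨_, _, _, Aff_ff, rfl⟩
    refine ⟨⟨_, hm⟩, ?_⟩
    rw [orderOf_eq_prime_pow (p := p) (n := 2)]
    · intro h
      have h1 := congrArg Subtype.val h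
      rw [Subgroup.coe_pow, Subgroup.coe_one] at h1
      exact gg_pow_ne h1
    · exact Subtype.ext (by rw [Subgroup.coe_pow, Subgroup.coe_one]; exact pow_cube _ hm)

end Pool.Agent.H785.PE
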