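import Mathlib

/-!
helper785: products of two subgroups and regular wreath products.
-/

set_option autoImplicit false

namespace Pool.Agent.H785.PE

open RegularWreathProduct

section
variable {D Q : Type} [Group D] [Group Q]

theorem right_pow (w : D ≀ᵣ Q) (n : ℕ) : (w ^ n).right = w.right ^ n := by
  induction n with
  | zero => simp
  | succ n ih => rw [pow_succ, mul_right, ih, pow_succ]

theorem left_pow_of_right_one (w : D ≀ᵣ Q) (h : w.right = 1) (n : ℕ) (x : Q) :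
    (w ^ n).left x = w.left x ^ n := by
  induction n with
  | zero => simp
  | succ n ih =>
    rw [pow_succ, mul_left, Pi.mul_apply, ih, right_pow, h, pow_succ]
    simp

/-- The subgroup `A₁ ≀ A₂`. -/
def sub (A₁ : Subgroup D) (A₂ : Subgroup Q) : Subgroup (D ≀ᵣ Q) where
  carrier := {w | (∀ x, w.left x ∈ A₁) ∧ w.right ∈ A₂}
  mul_mem' := by
    intro a b ha hb
    refine ⟨fun x => ?_, ?_⟩
    · rw [mul_left, Pi.mul_apply]
      exact A₁.mul_mem (ha.1 _) (hb.1 _)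
    · rw [mul_right]; exact A₂.mul_mem ha.2 hb.2
  one_mem' := ⟨fun x => by simp, by simp⟩
  inv_mem' := by
    intro a ha
    refine ⟨fun x => ?_, ?_⟩
    · rw [inv_left]
      simp only [Pi.inv_apply]
      exact A₁.inv_mem (ha.1 _)
    · rw [inv_right]; exact A₂.inv_mem ha.2

theorem mem_sub {A₁ : Subgroup D} {A₂ : Subgroup Q} {w : D ≀ᵣ Q} :
    w ∈ sub A₁ A₂ ↔ (∀ x, w.left x ∈ A₁) ∧ w.right ∈ A₂ := Iff.rfl

theorem sub_pow {A₁ : Subgroup D} {A₂ : Subgroup Q} {p s₁ s₂ : ℕ}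
    (h₁ : ∀ a ∈ A₁, a ^ p ^ s₁ = 1) (h₂ : ∀ a ∈ A₂, a ^ p ^ s₂ = 1) :
    ∀ a ∈ sub A₁ A₂, a ^ p ^ (s₁ + s₂) = 1 := by
  intro a ha
  have hr : (a ^ p ^ s₂).right = 1 := by rw [right_pow]; exact h₂ _ ha.2
  have hm : a ^ p ^ s₂ ∈ sub A₁ A₂ := Subgroup.pow_mem _ ha _
  have e : p ^ (s₁ + s₂) = p ^ s₂ * p ^ s₁ := by rw [pow_add]; ring
  rw [e, pow_mul]
  ext x
  · rw [left_pow_of_right_one _ hr, h₁ _ (hm.1 x)]; simp
  · rw [right_pow, hr, one_pow]; simp

theorem sub_factor {A₁ B₁ : Subgroup D} {A₂ B₂ : Subgroup Q}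
    (h₁ : ∀ g : D, ∃ a ∈ A₁, ∃ b ∈ B₁, g = a * b) (h₂ : ∀ g : Q, ∃ a ∈ A₂, ∃ b ∈ B₂, g = a * b) :
    ∀ g : D ≀ᵣ Q, ∃ a ∈ sub A₁ A₂, ∃ b ∈ sub B₁ B₂, g = a * b := by
  intro g
  choose α hα β hβ hαβ using h₁
  obtain ⟨a, ha, b, hb, hab⟩ := h₂ g.right
  refine ⟨⟨fun x => α (g.left x), a⟩, ⟨fun x => hα _, ha⟩,
    ⟨fun x => β (g.left (a * x)), b⟩, ⟨fun x => hβ _, hb⟩, ?_⟩
  ext x
  · simp only [mul_left, Pi.mul_apply]
    rw [mul_inv_cancel_left]
    exact hαβ _
  · simpa using hab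

open Classical in
/-- An element whose order is divisible by the product of the orders. -/
theorem orderOf_dvd [Finite Q] (d : D) (q : Q) :
    orderOf q * orderOf d ∣
      orderOf (⟨fun x => if x = 1 then d else 1, q⟩ : D ≀ᵣ Q) := by
  set w : D ≀ᵣ Q := ⟨fun x => if x = 1 then d else 1, q⟩ with hw
  have hk : ∀ n : ℕ, n + 1 ≤ orderOf q → (w ^ (n + 1)).left 1 = d := by
    intro n
    induction n with
    | zero => intro _; rw [zero_add, pow_one, hw]; simp
    | succ n ih =>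
      intro hn
      rw [pow_succ, mul_left, Pi.mul_apply, ih (by omega), right_pow]
      have : (q ^ (n + 1))⁻¹ * 1 ≠ 1 := by
        rw [mul_one, ne_eq, inv_eq_one]
        intro h
        have := orderOf_dvd_of_pow_eq_one h
        exact absurd (Nat.le_of_dvd (by omega) this) (by omega)
      rw [hw]
      simp only
      rw [if_neg this, mul_one]
  have hpos : 0 < orderOf q := orderOf_pos q
  have hN : w ^ orderOf w = 1 := pow_orderOf_eq_one w
  have hq : orderOf q ∣ orderOf w := by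
    apply orderOf_dvd_of_pow_eq_one
    have := congrArg RegularWreathProduct.right hN
    rw [right_pow] at this
    exact this
  obtain ⟨N', hN'⟩ := hq
  rw [hN']
  apply Nat.mul_dvd_mul_left
  apply orderOf_dvd_of_pow_eq_one
  have h2 : ((w ^ orderOf q) ^ N').left 1 = 1 := by
    rw [← pow_mul, ← hN', hN]; simp
  rw [left_pow_of_right_one _ (by rw [right_pow, hw]; exact pow_orderOf_eq_one q)] at h2
  have h3 := hk (orderOf q - 1) (by omega)
  rw [Nat.sub_add_cancel hpos] at h3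
  rwa [h3] at h2

end

/-- A finite `p`-group `G = A B` with `exp A = p ^ s`, `exp B = p ^ t` and an element whose order is
divisible by `p ^ m`. -/
def E (p s t m : ℕ) : Prop :=
  ∃ (G : Type) (_ : Group G) (_ : Finite G) (A B : Subgroup G), IsPGroup p G ∧
    (∀ g : G, ∃ a ∈ A, ∃ b ∈ B, g = a * b) ∧
    (∀ a ∈ A, a ^ p ^ s = 1) ∧ (∃ a ∈ A, p ^ s ∣ orderOf a) ∧
    (∀ b ∈ B, b ^ p ^ t = 1) ∧ (∃ b ∈ B, p ^ t ∣ orderOf b) ∧ (∃ g : G, p ^ m ∣ orderOf g)

theorem E.comp {p s t m s' t' m' : ℕ} [hp : Fact p.Prime] (h : E p s t m) (h' : E p s' t' m') :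
    E p (s + s') (t + t') (m + m') := by
  classical
  obtain ⟨G, i1, i2, A, B, hG, hf, hA, ⟨a, ha, ha'⟩, hB, ⟨b, hb, hb'⟩, ⟨g, hg⟩⟩ := h
  obtain ⟨G', i1', i2', A', B', hG', hf', hA', ⟨a', ha1, ha1'⟩, hB', ⟨b', hb1, hb1'⟩, ⟨g', hg'⟩⟩ := h'
  refine ⟨G ≀ᵣ G', inferInstance, inferInstance, sub A A', sub B B', ?_, sub_factor hf hf',
    sub_pow hA hA', ?_, sub_pow hB hB', ?_, ?_⟩
  · rw [IsPGroup.iff_card] at hG hG' ⊢
    obtain ⟨n, hn⟩ := hG
    obtain ⟨n', hn'⟩ := hG'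
    refine ⟨n * p ^ n' + n', ?_⟩
    rw [RegularWreathProduct.card, hn, hn', ← pow_mul, ← pow_add]
  · refine ⟨⟨fun x => if x = 1 then a else 1, a'⟩, ⟨fun x => ?_, ha1⟩, ?_⟩
    · simp only; split_ifs
      · exact ha
      · exact A.one_mem
    · rw [add_comm s s', pow_add]
      exact (Nat.mul_dvd_mul ha1' ha').trans (by convert orderOf_dvd a a')
  · refine ⟨⟨fun x => if x = 1 then b else 1, b'⟩, ⟨fun x => ?_, hb1⟩, ?_⟩
    · simp only; split_ifs
      · exact hb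
      · exact B.one_mem
    · rw [add_comm t t', pow_add]
      exact (Nat.mul_dvd_mul hb1' hb').trans (by convert orderOf_dvd b b')
  · refine ⟨⟨fun x => if x = 1 then g else 1, g'⟩, ?_⟩
    rw [add_comm m m', pow_add]
    exact (Nat.mul_dvd_mul hg' hg).trans (by convert orderOf_dvd g g')

theorem E.zero (p : ℕ) [Fact p.Prime] : E p 0 0 0 := by
  refine ⟨Unit, inferInstance, inferInstance, ⊤, ⊤, ?_, ?_, ?_, ⟨1, trivial, by simp⟩, ?_,
    ⟨1, trivial, by simp⟩, ⟨1, by simp⟩⟩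
  · exact IsPGroup.of_card (n := 0) (by simp)
  · intro g; exact ⟨1, trivial, 1, trivial, Subsingleton.elim _ _⟩
  · intro a _; exact Subsingleton.elim _ _
  · intro a _; exact Subsingleton.elim _ _

theorem E.left (p : ℕ) [hp : Fact p.Prime] : E p 1 0 1 := by
  have hc : ∀ a : Multiplicative (ZMod p), a ^ p = 1 := by
    intro a
    rw [← ofAdd_toAdd a, ← ofAdd_nsmul]
    simp
  have ho : p ^ 1 ∣ orderOf (Multiplicative.ofAdd (1 : ZMod p)) := by
    rw [pow_one, orderOf_ofAdd_eq_addOrderOf, ZMod.addOrderOf_one]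
  refine ⟨Multiplicative (ZMod p), inferInstance, inferInstance, ⊤, ⊥, ?_, ?_, ?_,
    ⟨_, trivial, ho⟩, ?_, ⟨1, Subgroup.mem_bot.2 rfl, by simp⟩, ⟨_, ho⟩⟩
  · exact IsPGroup.of_card (n := 1) (by simp)
  · intro g; exact ⟨g, trivial, 1, Subgroup.mem_bot.2 rfl, (mul_one g).symm⟩
  · intro a _; rw [pow_one]; exact hc a
  · intro b hb; rw [Subgroup.mem_bot.1 hb]; simp

theorem E.symm {p s t m : ℕ} (h : E p s t m) : E p t s m := by
  obtain ⟨G, i1, i2, A, B, hG, hf, hA, hA', hB, hB', hg⟩ := h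
  refine ⟨G, i1, i2, B, A, hG, fun g => ?_, hB, hB', hA, hA', hg⟩
  obtain ⟨a, ha, b, hb, hab⟩ := hf g⁻¹
  refine ⟨b⁻¹, B.inv_mem hb, a⁻¹, A.inv_mem ha, ?_⟩
  rw [← mul_inv_rev, ← hab, inv_inv]

theorem E.combine {p : ℕ} [hp : Fact p.Prime] (h : E p 1 1 3) (s t : ℕ) :
    E p s t (s + t + min s t) := by
  have h1 : ∀ n, E p n n (3 * n) := by
    intro n
    induction n with
    | zero => exact E.zero p
    | succ n ih => exact ih.comp h
  have h2 : ∀ n, E p n 0 n := by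
    intro n
    induction n with
    | zero => exact E.zero p
    | succ n ih => exact ih.comp (E.left p)
  have h3 : ∀ n d, E p (n + d) n (n + d + n + n) := by
    intro n d
    have := (h1 n).comp (h2 d)
    rw [add_zero] at this
    convert this using 1
    ring
  rcases le_total s t with hst | hst
  · obtain ⟨d, rfl⟩ := Nat.exists_eq_add_of_le hst
    have := (h3 s d).symm
    rw [min_eq_left hst]
    convert this using 1
    ring
  · obtain ⟨d, rfl⟩ := Nat.exists_eq_add_of_le hst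
    rw [min_eq_right hst]
    exact h3 t d

end Pool.Agent.H785.PE
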